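import Mathlib.RingTheory.Flat.TorsionFree
import Mathlib.Data.Nat.Nth
import Mathlib.RingTheory.SimpleRing.Principal
import Mathlib.RingTheory.TotallySplit
import Mathlib.RingTheory.Etale.Weakly
import Mathlib.RingTheory.Henselian
import Mathlib.RingTheory.RegularLocalRing.Defs

set_option autoImplicit false

namespace Pool.Agent.MP_b25485_lc

open Finset

variable {F : Type} [Field F]

/-- every index in the support of `u` is below every index in the support of `v` -/
def Below (u v : ℕ →₀ F) : Prop := ∀ i ∈ u.support, ∀ j ∈ v.support, i < j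

/-- block sequences -/
def IsBlock (X : ℕ → (ℕ →₀ F)) : Prop := ∀ n, X n ≠ 0 ∧ Below (X n) (X (n + 1))

/-- the first and the last nonzero coefficients of `u` agree -/
def Bal (u : ℕ →₀ F) : Prop :=
  ∃ i ∈ u.support, ∃ j ∈ u.support, (∀ k ∈ u.support, i ≤ k ∧ k ≤ j) ∧ u i = u j

lemma Bal.ne_zero {u : ℕ →₀ F} (h : Bal u) : u ≠ 0 := by
  rintro rfl
  obtain ⟨i, hi, -⟩ := h
  simp at hi

lemma Bal.smul {u : ℕ →₀ F} (h : Bal u) {a : F} (ha : a ≠ 0) : Bal (a • u) := by
  obtain ⟨i, hi, j, hj, hk, he⟩ := h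
  have hs : (a • u).support = u.support := Finsupp.support_smul_eq ha
  refine ⟨i, hs ▸ hi, j, hs ▸ hj, hs ▸ hk, ?_⟩
  simp [he]

lemma exists_mem_support {u : ℕ →₀ F} (h : u ≠ 0) : ∃ i, i ∈ u.support :=
  Finsupp.support_nonempty_iff.2 h

lemma IsBlock.below {X : ℕ → (ℕ →₀ F)} (h : IsBlock X) {m n : ℕ} (hmn : m < n) :
    Below (X m) (X n) := by
  induction n, hmn using Nat.le_induction with
  | base => exact (h m).2
  | succ n _ ih =>
    intro i hi j hj
    obtain ⟨k, hk⟩ := exists_mem_support (h n).1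
    exact (ih i hi k hk).trans ((h n).2 k hk j hj)

lemma IsBlock.le_of_mem {X : ℕ → (ℕ →₀ F)} (h : IsBlock X) (n : ℕ) :
    ∀ j ∈ (X n).support, n ≤ j := by
  induction n with
  | zero => intro j _; exact Nat.zero_le _
  | succ n ih =>
    intro j hj
    obtain ⟨k, hk⟩ := exists_mem_support (h n).1
    exact Nat.succ_le_of_lt (lt_of_le_of_lt (ih k hk) ((h n).2 k hk j hj))

lemma sum_apply_of_below {s : Finset ℕ} {u : ℕ → (ℕ →₀ F)}
    (h : ∀ i ∈ s, ∀ j ∈ s, i < j → Below (u i) (u j)) {i : ℕ} (hi : i ∈ s) {k : ℕ}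
    (hk : k ∈ (u i).support) : (∑ j ∈ s, u j) k = u i k := by
  rw [Finsupp.finsetSum_apply]
  refine sum_eq_single_of_mem i hi (fun j hj hji => ?_)
  by_contra hne
  have hk' : k ∈ (u j).support := Finsupp.mem_support_iff.2 hne
  rcases lt_or_gt_of_ne hji with hlt | hlt
  · exact lt_irrefl _ (h j hj i hi hlt k hk' k hk)
  · exact lt_irrefl _ (h i hi j hj hlt k hk k hk')

lemma exists_bal {Z : ℕ → (ℕ →₀ F)} (h : IsBlock Z) (N : ℕ) :
    ∃ z ∈ Submodule.span F (Set.range Z), Bal z ∧ ∀ j ∈ z.support, N < j := by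
  have h1 : (Z (N + 1)).support.Nonempty := Finsupp.support_nonempty_iff.2 (h _).1
  have h2 : (Z (N + 2)).support.Nonempty := Finsupp.support_nonempty_iff.2 (h _).1
  set i := (Z (N + 1)).support.min' h1 with hi
  set j := (Z (N + 2)).support.max' h2 with hj
  have him : i ∈ (Z (N + 1)).support := min'_mem _ _
  have hjm : j ∈ (Z (N + 2)).support := max'_mem _ _
  have hb : Below (Z (N + 1)) (Z (N + 2)) := (h _).2
  have hi2 : Z (N + 2) i = 0 := by
    by_contra hne
    exact lt_irrefl _ (hb i him i (Finsupp.mem_support_iff.2 hne))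
  have hj1 : Z (N + 1) j = 0 := by
    by_contra hne
    exact lt_irrefl _ (hb j (Finsupp.mem_support_iff.2 hne) j hjm)
  have hi1 : Z (N + 1) i ≠ 0 := Finsupp.mem_support_iff.1 him
  have hj2 : Z (N + 2) j ≠ 0 := Finsupp.mem_support_iff.1 hjm
  set z := Z (N + 1) + (Z (N + 1) i / Z (N + 2) j) • Z (N + 2) with hz
  have hzi : z i = Z (N + 1) i := by simp [hz, hi2]
  have hzj : z j = Z (N + 1) i := by
    simp only [hz, Finsupp.add_apply, Finsupp.smul_apply, hj1, smul_eq_mul, zero_add]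
    field_simp
  have hsupp : ∀ k ∈ z.support, k ∈ (Z (N + 1)).support ∨ k ∈ (Z (N + 2)).support := by
    intro k hk
    by_contra hcon
    push Not at hcon
    have e1 := Finsupp.notMem_support_iff.1 hcon.1
    have e2 := Finsupp.notMem_support_iff.1 hcon.2
    exact (Finsupp.mem_support_iff.1 hk) (by simp [hz, e1, e2])
  refine ⟨z, ?_, ⟨i, ?_, j, ?_, ?_, by rw [hzi, hzj]⟩, ?_⟩
  · exact Submodule.add_mem _ (Submodule.subset_span ⟨_, rfl⟩)
      (Submodule.smul_mem _ _ (Submodule.subset_span ⟨_, rfl⟩))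
  · exact Finsupp.mem_support_iff.2 (hzi ▸ hi1)
  · exact Finsupp.mem_support_iff.2 (hzj ▸ hi1)
  · intro k hk
    rcases hsupp k hk with hk | hk
    · exact ⟨min'_le _ _ hk, (hb k hk j hjm).le⟩
    · exact ⟨(hb i him k hk).le, le_max' _ _ hk⟩
  · intro k hk
    rcases hsupp k hk with hk | hk
    · exact h.le_of_mem _ k hk
    · exact lt_of_lt_of_le (by omega) (h.le_of_mem _ k hk)

lemma not_finiteDimensional {z : ℕ → (ℕ →₀ F)} (h : IsBlock z) :
    ¬ FiniteDimensional F (Submodule.span F (Set.range z)) := by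
  intro hfd
  have hfg : (Submodule.span F (Set.range z)).FG := (Module.Finite.iff_fg).1 hfd
  obtain ⟨s, hs⟩ := hfg
  set N := s.sup (fun u => u.support.sup id) with hN
  have hle : Submodule.span F (s : Set (ℕ →₀ F)) ≤ Finsupp.supported F F (Set.Iic N) := by
    rw [Submodule.span_le]
    intro u hu
    simp only [SetLike.mem_coe, Finsupp.mem_supported]
    intro k hk
    have h1 : k ≤ u.support.sup id := le_sup (f := id) hk
    have h2 : u.support.sup id ≤ N := le_sup (f := fun u : ℕ →₀ F => u.support.sup id) hu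
    exact h1.trans h2
  have hz : z (N + 1) ∈ Finsupp.supported F F (Set.Iic N) :=
    hle (hs ▸ Submodule.subset_span ⟨_, rfl⟩)
  rw [Finsupp.mem_supported] at hz
  obtain ⟨k, hk⟩ := exists_mem_support (h (N + 1)).1
  have h1 : k ≤ N := hz hk
  have h2 := h.le_of_mem _ k hk
  omega

lemma mem_span_tail {B : ℕ → (ℕ →₀ F)} (h : IsBlock B) (k : ℕ) {v : ℕ →₀ F}
    (hv : v ∈ Submodule.span F (Set.range B))
    (hN : ∀ j ∈ v.support, (B k).support.sup id < j) :
    v ∈ Submodule.span F (Set.range (fun n => B (n + k))) := by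
  obtain ⟨c, rfl⟩ := Finsupp.mem_span_range_iff_exists_finsupp.1 hv
  unfold Finsupp.sum at hN ⊢
  refine Submodule.sum_mem _ (fun i hi => Submodule.smul_mem _ _ (Submodule.subset_span ?_))
  have hsupp : ∀ j ∈ c.support, (c j • B j).support = (B j).support := fun j hj =>
    Finsupp.support_smul_eq (Finsupp.mem_support_iff.1 hj)
  by_cases hik : k ≤ i
  · exact ⟨i - k, by simp [Nat.sub_add_cancel hik]⟩
  · exfalso
    push Not at hik
    obtain ⟨j, hj⟩ := exists_mem_support (h i).1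
    have hj' : j ∈ (c i • B i).support := (hsupp i hi).symm ▸ hj
    have he := sum_apply_of_below (s := c.support) (u := fun j => c j • B j)
      (fun a ha b hb hab => by
        unfold Below
        rw [hsupp a ha, hsupp b hb]
        exact h.below hab) hi hj'
    have hmem : j ∈ (∑ a ∈ c.support, c a • B a).support := by
      rw [Finsupp.mem_support_iff, he]
      exact Finsupp.mem_support_iff.1 hj'
    obtain ⟨m, hm⟩ := exists_mem_support (h k).1
    have h1 : m ≤ (B k).support.sup id := le_sup (f := id) hm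
    have h2 := hN j hmem
    have h3 := h.below hik j hj m hm
    omega

/-- `v` is a sum of balanced vectors of `W`, with `φ`-gaps between them -/
def Dec (W : Submodule F (ℕ →₀ F)) (φ : (ℕ →₀ F) → ℕ) (s : Finset ℕ) (u : ℕ → (ℕ →₀ F))
    (v : ℕ →₀ F) : Prop :=
  ∑ i ∈ s, u i = v ∧ (∀ i ∈ s, Bal (u i) ∧ u i ∈ W) ∧
    ∀ i ∈ s, ∀ j ∈ s, i < j → ∀ k ∈ (u j).support, φ (u i) < k

lemma Dec.below {W : Submodule F (ℕ →₀ F)} {φ : (ℕ →₀ F) → ℕ}
    (hφ : ∀ u, ∀ i ∈ u.support, i ≤ φ u) {s : Finset ℕ} {u : ℕ → (ℕ →₀ F)} {v : ℕ →₀ F}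
    (h : Dec W φ s u v) : ∀ i ∈ s, ∀ j ∈ s, i < j → Below (u i) (u j) :=
  fun i hi j hj hij a ha b hb => lt_of_le_of_lt (hφ _ a ha) (h.2.2 i hi j hj hij b hb)

lemma Dec.apply {W : Submodule F (ℕ →₀ F)} {φ : (ℕ →₀ F) → ℕ}
    (hφ : ∀ u, ∀ i ∈ u.support, i ≤ φ u) {s : Finset ℕ} {u : ℕ → (ℕ →₀ F)} {v : ℕ →₀ F}
    (h : Dec W φ s u v) {i : ℕ} (hi : i ∈ s) {k : ℕ} (hk : k ∈ (u i).support) :
    v k = u i k := by
  rw [← h.1]
  exact sum_apply_of_below (h.below hφ) hi hk

lemma exists_dense {W : Submodule F (ℕ →₀ F)} {φ : (ℕ →₀ F) → ℕ}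
    (hφ : ∀ u, ∀ i ∈ u.support, i ≤ φ u) (hφs : ∀ u, ∀ a : F, a ≠ 0 → φ (a • u) = φ u)
    {Z : ℕ → (ℕ →₀ F)} (h : IsBlock Z) (hZ : Submodule.span F (Set.range Z) ≤ W) :
    ∃ V : Submodule F (ℕ →₀ F), ¬ FiniteDimensional F V ∧ V ≤ Submodule.span F (Set.range Z) ∧
      ∀ v ∈ V, ∃ s u, Dec W φ s u v := by
  choose f hf1 hf2 hf3 using exists_bal h
  let z : ℕ → (ℕ →₀ F) := fun n => Nat.rec (f 0) (fun _ w => f (φ w)) n
  have hz : ∀ n, ∃ N, z n = f N := by
    intro n
    cases n with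
    | zero => exact ⟨0, rfl⟩
    | succ n => exact ⟨φ (z n), rfl⟩
  have hgap : ∀ n, ∀ k ∈ (z (n + 1)).support, φ (z n) < k := fun n => hf3 _
  have hbal : ∀ n, Bal (z n) := fun n => by
    obtain ⟨N, hN⟩ := hz n
    exact hN ▸ hf2 N
  have hmem : ∀ n, z n ∈ Submodule.span F (Set.range Z) := fun n => by
    obtain ⟨N, hN⟩ := hz n
    exact hN ▸ hf1 N
  have hblock : IsBlock z := fun n =>
    ⟨(hbal n).ne_zero, fun i hi j hj => lt_of_le_of_lt (hφ _ i hi) (hgap n j hj)⟩
  have hgap' : ∀ m n, m < n → ∀ k ∈ (z n).support, φ (z m) < k := by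
    intro m n hmn k hk
    rcases (Nat.succ_le_of_lt hmn).eq_or_lt with he | hlt
    · exact hgap m k (by rw [show m + 1 = n from he]; exact hk)
    · obtain ⟨j, hj⟩ := exists_mem_support (hblock (m + 1)).1
      exact (hgap m j hj).trans (hblock.below hlt j hj k hk)
  refine ⟨Submodule.span F (Set.range z), not_finiteDimensional hblock, ?_, ?_⟩
  · rw [Submodule.span_le]
    rintro _ ⟨n, rfl⟩
    exact hmem n
  · intro v hv
    obtain ⟨c, rfl⟩ := Finsupp.mem_span_range_iff_exists_finsupp.1 hv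
    refine ⟨c.support, fun i => c i • z i, rfl, fun i hi => ?_, fun i hi j hj hij k hk => ?_⟩
    · exact ⟨(hbal i).smul (Finsupp.mem_support_iff.1 hi), W.smul_mem _ (hZ (hmem i))⟩
    · rw [hφs _ _ (Finsupp.mem_support_iff.1 hi)]
      rw [Finsupp.support_smul_eq (Finsupp.mem_support_iff.1 hj)] at hk
      exact hgap' i j hij k hk

lemma Dec.split {W : Submodule F (ℕ →₀ F)} {φ : (ℕ →₀ F) → ℕ}
    (hφ : ∀ u, ∀ i ∈ u.support, i ≤ φ u) {s : Finset ℕ} {u : ℕ → (ℕ →₀ F)} {a b : ℕ →₀ F}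
    {t : F} (hab : Below a b) (ht0 : t ≠ 0)
    (ht : ∀ i ∈ a.support, ∀ j ∈ b.support, t ≠ a i / b j)
    (h : Dec W φ s u (a + t • b)) :
    ∃ s', Dec W φ s' u a ∧ ∀ i ∈ s', ∀ j ∈ b.support, φ (u i) < j := by
  classical
  have hb0 : ∀ k ∈ a.support, b k = 0 := fun k hk => by
    by_contra hne
    exact lt_irrefl _ (hab k hk k (Finsupp.mem_support_iff.2 hne))
  have ha0 : ∀ k ∈ b.support, a k = 0 := fun k hk => by
    by_contra hne
    exact lt_irrefl _ (hab k (Finsupp.mem_support_iff.2 hne) k hk)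
  have hor : ∀ i ∈ s, ∀ k ∈ (u i).support, k ∈ a.support ∨ k ∈ b.support := by
    intro i hi k hk
    by_contra hcon
    push Not at hcon
    have e1 := Finsupp.notMem_support_iff.1 hcon.1
    have e2 := Finsupp.notMem_support_iff.1 hcon.2
    have e3 := h.apply hφ hi hk
    apply Finsupp.mem_support_iff.1 hk
    rw [← e3]
    simp [e1, e2]
  have hside : ∀ i ∈ s, (∀ k ∈ (u i).support, k ∈ a.support) ∨
      (∀ k ∈ (u i).support, k ∈ b.support) := by
    intro i hi
    obtain ⟨p, hp, q, hq, hpq, he⟩ := (h.2.1 i hi).1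
    rcases hor i hi p hp with hpa | hpb
    · rcases hor i hi q hq with hqa | hqb
      · left
        intro k hk
        rcases hor i hi k hk with hk' | hk'
        · exact hk'
        · exact absurd (hab q hqa k hk') (not_lt.2 (hpq k hk).2)
      · exfalso
        have e1 := h.apply hφ hi hp
        have e2 := h.apply hφ hi hq
        simp only [Finsupp.add_apply, Finsupp.smul_apply, hb0 p hpa, ha0 q hqb, smul_eq_mul,
          mul_zero, add_zero, zero_add] at e1 e2
        apply ht p hpa q hqb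
        rw [eq_div_iff (Finsupp.mem_support_iff.1 hqb), e1, e2, he]
    · right
      intro k hk
      rcases hor i hi k hk with hk' | hk'
      · exact absurd (hab k hk' p hpb) (not_lt.2 (hpq k hk).1)
      · exact hk'
  refine ⟨s.filter (fun i => ∀ k ∈ (u i).support, k ∈ a.support), ⟨?_, ?_, ?_⟩, ?_⟩
  · ext k
    rw [Finsupp.finsetSum_apply]
    by_cases hk : k ∈ a.support
    · have e1 : (a + t • b) k = a k := by simp [hb0 k hk]
      rw [← e1, ← h.1, Finsupp.finsetSum_apply]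
      refine sum_subset (filter_subset _ _) (fun i hi hi' => ?_)
      by_contra hne
      have hk' : k ∈ (u i).support := Finsupp.mem_support_iff.2 hne
      rcases hside i hi with h1 | h1
      · exact hi' (mem_filter.2 ⟨hi, h1⟩)
      · exact lt_irrefl _ (hab k hk k (h1 k hk'))
    · rw [Finsupp.notMem_support_iff.1 hk]
      refine sum_eq_zero (fun i hi => ?_)
      by_contra hne
      exact hk ((mem_filter.1 hi).2 k (Finsupp.mem_support_iff.2 hne))
  · exact fun i hi => h.2.1 i (mem_filter.1 hi).1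
  · exact fun i hi j hj => h.2.2 i (mem_filter.1 hi).1 j (mem_filter.1 hj).1
  · intro i hi j hj
    obtain ⟨hi, hia⟩ := mem_filter.1 hi
    have e1 : (∑ i ∈ s, u i) j ≠ 0 := by
      rw [h.1]
      simp only [Finsupp.add_apply, Finsupp.smul_apply, ha0 j hj, smul_eq_mul, zero_add]
      exact mul_ne_zero ht0 (Finsupp.mem_support_iff.1 hj)
    rw [Finsupp.finsetSum_apply] at e1
    obtain ⟨i', hi', hne⟩ := exists_ne_zero_of_sum_ne_zero e1
    have hj' : j ∈ (u i').support := Finsupp.mem_support_iff.2 hne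
    rcases lt_trichotomy i i' with hlt | rfl | hlt
    · exact h.2.2 i hi i' hi' hlt j hj'
    · exact absurd (hab j (hia j hj') j hj) (lt_irrefl _)
    · obtain ⟨k, hk⟩ := exists_mem_support (h.2.1 i hi).1.ne_zero
      have h1 := h.below hφ i' hi' i hi hlt j hj' k hk
      have h2 := hab k (hia k hk) j hj
      omega

/-- the least index in the support -/
noncomputable def lo (u : ℕ →₀ F) : ℕ := sInf (u.support : Set ℕ)

lemma lo_mem {u : ℕ →₀ F} (h : u ≠ 0) : lo u ∈ u.support :=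
  Nat.sInf_mem (s := (u.support : Set ℕ)) (Finsupp.support_nonempty_iff.2 h)

lemma exists_enum {φ : (ℕ →₀ F) → ℕ} (hφ : ∀ u, ∀ i ∈ u.support, i ≤ φ u)
    {S : Set (ℕ →₀ F)} (h0 : ∀ u ∈ S, u ≠ 0)
    (hS : ∀ u ∈ S, ∀ w ∈ S, u = w ∨ (∀ k ∈ w.support, φ u < k) ∨ (∀ k ∈ u.support, φ w < k))
    (hinf : ∀ n, ∃ u ∈ S, n ≤ lo u) :
    ∃ X : ℕ → (ℕ →₀ F), Set.range X = S ∧
      ∀ m n, m < n → ∀ k ∈ (X n).support, φ (X m) < k := by
  have hT : (Set.ofPred (fun n => n ∈ lo '' S)).Infinite := by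
    refine Set.infinite_of_forall_exists_gt (fun n => ?_)
    obtain ⟨u, hu, hn⟩ := hinf (n + 1)
    exact ⟨lo u, ⟨u, hu, rfl⟩, hn⟩
  have hmem : ∀ k, ∃ u ∈ S, lo u = Nat.nth (fun n => n ∈ lo '' S) k :=
    fun k => Nat.nth_mem_of_infinite hT k
  choose X hX1 hX2 using hmem
  have hlt : ∀ u ∈ S, ∀ w ∈ S, (∀ k ∈ w.support, φ u < k) → lo u < lo w := fun u hu w hw h =>
    lt_of_le_of_lt (hφ u _ (lo_mem (h0 u hu))) (h _ (lo_mem (h0 w hw)))
  refine ⟨X, ?_, ?_⟩
  · ext u
    constructor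
    · rintro ⟨k, rfl⟩
      exact hX1 k
    · intro hu
      have : lo u ∈ Set.range (Nat.nth (fun n => n ∈ lo '' S)) := by
        rw [Nat.range_nth_of_infinite hT]
        exact ⟨u, hu, rfl⟩
      obtain ⟨k, hk⟩ := this
      refine ⟨k, ?_⟩
      have he : lo (X k) = lo u := (hX2 k).trans hk
      rcases hS (X k) (hX1 k) u hu with h | h | h
      · exact h
      · exact absurd (hlt _ (hX1 k) _ hu h) (by omega)
      · exact absurd (hlt _ hu _ (hX1 k) h) (by omega)
  · intro m n hmn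
    have h1 : lo (X m) < lo (X n) := by
      rw [hX2, hX2]
      exact Nat.nth_strictMono hT hmn
    rcases hS (X m) (hX1 m) (X n) (hX1 n) with h | h | h
    · rw [h] at h1
      exact absurd h1 (lt_irrefl _)
    · exact h
    · exact absurd (hlt _ (hX1 n) _ (hX1 m) h) (by omega)

lemma exists_gauge {E : Type} [Countable E] (μ : E → ℕ) (N : List E → ℕ) :
    ∃ ψ : E → ℕ, ∀ x : ℕ → E, (∀ k, ψ (x k) < μ (x (k + 1))) →
      ∀ k, N (List.ofFn (fun i : Fin (k + 1) => x i.val)) ≤ ψ (x k) := by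
  classical
  obtain ⟨e, he⟩ := exists_injective_nat (List E)
  have hfin : ∀ M : ℕ, (insert [] (e ⁻¹' Set.Iic M) : Set (List E)).Finite := fun M =>
    ((Set.finite_Iic M).preimage he.injOn).insert _
  refine ⟨fun y => (hfin (μ y)).toFinset.sup (fun l => max (e (l ++ [y])) (N (l ++ [y]))), ?_⟩
  intro x hx
  have hsucc : ∀ k, List.ofFn (fun i : Fin (k + 1) => x i.val) =
      List.ofFn (fun i : Fin k => x i.val) ++ [x k] := by
    intro k
    rw [List.ofFn_succ', List.concat_eq_append]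
    simp
  have hmem : ∀ k, List.ofFn (fun i : Fin k => x i.val) ∈ (hfin (μ (x k))).toFinset := by
    intro k
    induction k with
    | zero => simp
    | succ k ih =>
      rw [Set.Finite.mem_toFinset]
      right
      have h1 := le_sup (f := fun l => max (e (l ++ [x k])) (N (l ++ [x k]))) ih
      have h2 := hx k
      simp only at h1 h2
      rw [← hsucc] at h1
      exact ((le_max_left _ _).trans h1).trans h2.le
  intro k
  have h1 := le_sup (f := fun l => max (e (l ++ [x k])) (N (l ++ [x k]))) (hmem k)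
  rw [← hsucc] at h1
  exact (le_max_right _ _).trans h1

/-- a chosen nonzero multiple of `u`, depending only on the line of `u` -/
noncomputable def rep (u : ℕ →₀ F) : ℕ →₀ F :=
  Classical.epsilon (fun w => ∃ c : F, c ≠ 0 ∧ w = c • u)

lemma rep_spec (u : ℕ →₀ F) : ∃ c : F, c ≠ 0 ∧ rep u = c • u :=
  Classical.epsilon_spec (p := fun w => ∃ c : F, c ≠ 0 ∧ w = c • u) ⟨u, 1, one_ne_zero, by simp⟩

lemma rep_smul (u : ℕ →₀ F) {a : F} (ha : a ≠ 0) : rep (a • u) = rep u := by
  unfold rep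
  congr 1
  funext w
  apply propext
  constructor
  · rintro ⟨c, hc, rfl⟩
    exact ⟨c * a, mul_ne_zero hc ha, by rw [mul_smul]⟩
  · rintro ⟨c, hc, rfl⟩
    refine ⟨c / a, div_ne_zero hc ha, ?_⟩
    rw [smul_smul, div_mul_cancel₀ _ ha]

lemma support_rep (u : ℕ →₀ F) : (rep u).support = u.support := by
  obtain ⟨c, hc, h⟩ := rep_spec u
  rw [h, Finsupp.support_smul_eq hc]

end Pool.Agent.MP_b25485_lc
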